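import Pool.Agent.Helper240.Conn

/-!
The Haefliger group (the fundamental group of the classifying space of real analytic codimension
one Haefliger structures) is not simple.
-/

set_option autoImplicit false

open Pool.Agent.Helper240

namespace Pool.Agent.Results.MP_58c1c9_gt.NotSimple

section monodromy

variable {E X : Type*} [TopologicalSpace E] [TopologicalSpace X] {p : E → X}

/-- Monodromy along a conjugated loop fixes a point iff monodromy along the loop fixes the
transported point. -/
theorem monodromy_conj (cov : IsCoveringMap p) {b x : X} (q : Path.Homotopic.Quotient b x)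
    (ρ : Path.Homotopic.Quotient x x) (e : p ⁻¹' {b}) :
    cov.monodromy (q.trans (ρ.trans q.symm)) e = e ↔
      cov.monodromy ρ (cov.monodromy q e) = cov.monodromy q e := by
  rw [cov.monodromy_trans_apply, cov.monodromy_trans_apply]
  have h1 : ∀ z, cov.monodromy q.symm (cov.monodromy q z) = z := by
    intro z
    rw [← cov.monodromy_trans_apply, Path.Homotopic.Quotient.trans_symm]
    exact congrFun cov.monodromy_refl z
  have h2 : ∀ z, cov.monodromy q (cov.monodromy q.symm z) = z := by
    intro z
    rw [← cov.monodromy_trans_apply, Path.Homotopic.Quotient.symm_trans]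
    exact congrFun cov.monodromy_refl z
  constructor
  · intro h
    have := congrArg (cov.monodromy q) h
    rwa [h2] at this
  · intro h
    rw [h, h1]

/-- If the monodromy along a loop fixes a point, there is a closed lift. -/
theorem closed_lift (cov : IsCoveringMap p) {x : X} (ρ : Path x x) (e : p ⁻¹' {x})
    (h : cov.monodromy (Path.Homotopic.Quotient.mk ρ) e = e) :
    ∃ F : C(unitInterval, E), (∀ s, p (F s) = ρ s) ∧ F 1 = F 0 := by
  have h0 : (ρ : C(unitInterval, X)) 0 = p e := ρ.source.trans e.2.symm
  refine ⟨cov.liftPath ρ e h0, fun s => congrFun (cov.liftPath_lifts ρ e h0) s, ?_⟩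
  rw [cov.liftPath_zero]
  exact congrArg Subtype.val h

/-- A closed lift shows that the monodromy fixes a point. -/
theorem monodromy_of_closed (cov : IsCoveringMap p) {x : X} (ρ : Path x x) (e : p ⁻¹' {x})
    (F : C(unitInterval, E)) (hF : ∀ s, p (F s) = ρ s) (h0 : F 0 = e) (h1 : F 1 = e) :
    cov.monodromy (Path.Homotopic.Quotient.mk ρ) e = e := by
  have h0' : (ρ : C(unitInterval, X)) 0 = p e := ρ.source.trans e.2.symm
  have hlift : F = cov.liftPath ρ e h0' :=
    (cov.eq_liftPath_iff' h0').mpr ⟨funext hF, h0⟩
  apply Subtype.ext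
  show cov.liftPath ρ e h0' 1 = e
  rw [← hlift, h1]

end monodromy

/-- The Haefliger group `π₁(BΓ)` has a normal subgroup which is neither trivial nor the whole
group (for every base point). -/
theorem result : ∀ b : BGamma, ∃ N : Subgroup (FundamentalGroup BGamma b),
    N.Normal ∧ N ≠ ⊥ ∧ N ≠ ⊤ := by
  intro b
  let _ : TopologicalSpace (LineCalc.Univ pxPG.lineCalc) := ⊥
  have _ : DiscreteTopology (LineCalc.Univ pxPG.lineCalc) := ⟨rfl⟩
  let _ : TopologicalSpace (LineCalc.Univ anPG.lineCalc) := ⊥
  have _ : DiscreteTopology (LineCalc.Univ anPG.lineCalc) := ⟨rfl⟩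
  have cov := pxSys.isCoveringMap
  have cova := anSys.isCoveringMap
  refine ⟨(cov.monodromyPerm b).ker, inferInstance, ?_, ?_⟩
  · -- the cube loop is a non-trivial element of the kernel
    obtain ⟨q⟩ := joined_all b (cubeLoop (Circle.exp 0))
    let Q : Path.Homotopic.Quotient b (cubeLoop (Circle.exp 0)) := Path.Homotopic.Quotient.mk q
    let R : Path.Homotopic.Quotient (cubeLoop (Circle.exp 0)) (cubeLoop (Circle.exp 0)) :=
      Path.Homotopic.Quotient.mk (loopPath cubeLoop)
    let g : FundamentalGroup BGamma b := Q.trans (R.trans Q.symm)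
    intro hbot
    have hg : g ∈ (cov.monodromyPerm b).ker := by
      rw [MonoidHom.mem_ker]
      apply Equiv.ext
      intro e
      show cov.monodromy (Q.trans (R.trans Q.symm)) e = e
      rw [monodromy_conj]
      set e' := cov.monodromy Q e with he'
      obtain ⟨F, hF, hF0⟩ := cube_lift (pxSys.cd 0 e'.1)
      have hp : (F (Circle.exp 0)).proj = e'.1.proj := (hF _).trans e'.2.symm
      have ht : 0 < (cubeLoop (Circle.exp 0)).t 0 := by
        show 0 < 1 - (1 + im (Circle.exp 0)) / 2
        rw [im_exp, Real.sin_zero]
        norm_num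
      have hFe : F (Circle.exp 0) = e'.1 := by
        refine pxSys.ext_cd (i := 0) hp (by rw [hF]; exact ht) ?_
        rw [hF0 _ ht]
      have h0 : pathOfLift F 0 = e'.1 := by
        show F (Circle.exp (2 * Real.pi * ((0 : unitInterval) : ℝ))) = e'.1
        rw [← hFe]; simp
      exact monodromy_of_closed cov (loopPath cubeLoop) e' (pathOfLift F) (fun s => hF _) h0
        ((pathOfLift_one F).trans h0)
    rw [hbot, Subgroup.mem_bot] at hg
    -- compare with the covering attached to the analytic pseudogroup
    let e : (anSys.core.proj) ⁻¹' {b} := ⟨⟨b, (1 : LineCalc.Univ anPG.lineCalc)⟩, rfl⟩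
    have h1 : cova.monodromy (Q.trans (R.trans Q.symm)) e = e := by
      have : (Q.trans (R.trans Q.symm)) = Path.Homotopic.Quotient.refl b := hg
      rw [this]
      exact congrFun cova.monodromy_refl e
    rw [monodromy_conj] at h1
    obtain ⟨F, hF, hc⟩ := closed_lift cova (loopPath cubeLoop) _ h1
    exact cube_not_lift_path F hF hc
  · -- the doubling loop is not in the kernel
    obtain ⟨q⟩ := joined_all b (doubleLoop (Circle.exp 0))
    let Q : Path.Homotopic.Quotient b (doubleLoop (Circle.exp 0)) := Path.Homotopic.Quotient.mk q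
    let R : Path.Homotopic.Quotient (doubleLoop (Circle.exp 0)) (doubleLoop (Circle.exp 0)) :=
      Path.Homotopic.Quotient.mk (loopPath doubleLoop)
    let g : FundamentalGroup BGamma b := Q.trans (R.trans Q.symm)
    intro htop
    have hg : g ∈ (cov.monodromyPerm b).ker := by rw [htop]; exact Subgroup.mem_top _
    rw [MonoidHom.mem_ker] at hg
    let e : (pxSys.core.proj) ⁻¹' {b} := ⟨⟨b, (1 : LineCalc.Univ pxPG.lineCalc)⟩, rfl⟩
    have h1 : cov.monodromy (Q.trans (R.trans Q.symm)) e = e := by
      have := congrArg (fun σ : Equiv.Perm ((pxSys.core.proj) ⁻¹' {b}) => σ e) hg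
      exact this
    rw [monodromy_conj] at h1
    obtain ⟨F, hF, hc⟩ := closed_lift cov (loopPath doubleLoop) _ h1
    exact double_not_lift_path F hF hc

end Pool.Agent.Results.MP_58c1c9_gt.NotSimple
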